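import Pool.Agent.NE.Stmts

set_option autoImplicit false

open Finset

namespace Pool.Agent.NE.H40

theorem tre (nnb : NnbStmt) : TreStmt := by
  intro N p s hN hp hs hlt
  obtain ⟨hus, hnn, hsucc, hmono, hex, huniq, -⟩ := nnb N hN
  choose! tt mm hm1 hm2 hm3 using hex
  refine ⟨fun i => ix (nn N (tt i)) (us (tt i)) (s (tt i) (mm i)),
    fun t => Nat.rec (motive := fun _ => ℕ → ℝ) (fun _ => 1)
      (fun t θ i => if i < nn N t ∧ i ≠ us t then θ i
        else p t (if i = us t then 0 else i - nn N t + 1) * θ (us t)) t,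
    hN, hp, hs, hlt, ?_, rfl, ?_, ?_⟩
  · intro t m h1 h2
    have hi : 1 ≤ nn N t + (m - 1) := by
      have := hnn t
      omega
    obtain ⟨e1, e2⟩ := huniq (tt (nn N t + (m - 1))) (mm (nn N t + (m - 1))) t m
      (hm1 _ hi) (hm2 _ hi) h1 h2 (hm3 _ hi).symm
    show ix _ _ _ = _
    rw [e1, e2]
  · intro t j hj
    have hu := hus t
    by_cases h0 : j = 0
    · subst h0
      show (if ix (nn N t) (us t) 0 < nn N t ∧ ix (nn N t) (us t) 0 ≠ us t then _ else _) = _
      have : ix (nn N t) (us t) 0 = us t := by simp [ix]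
      rw [this, if_neg (by simp), if_pos rfl]
    · show (if ix (nn N t) (us t) j < nn N t ∧ ix (nn N t) (us t) j ≠ us t then _ else _) = _
      have e : ix (nn N t) (us t) j = nn N t + (j - 1) := by simp [ix, h0]
      rw [e, if_neg (by omega), if_neg (by omega)]
      have : nn N t + (j - 1) - nn N t + 1 = j := by omega
      rw [this]
  · intro t i hi hne
    show (if i < nn N t ∧ i ≠ us t then _ else _) = _
    rw [if_pos ⟨hi, hne⟩]

end Pool.Agent.NE.H40
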